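import Mathlib

/-!
# Bookkeeping on the first uncountable ordinal
-/

open Cardinal Ordinal Set

namespace Pool.Agent.R268.Gur

/-- The index type: the first uncountable ordinal as a type. -/
abbrev Om : Type := (Cardinal.aleph 1).ord.ToType

theorem mk_Om : #Om = ℵ₁ := by
  unfold Om
  rw [Cardinal.mk_toType, Cardinal.card_ord]

theorem countable_Iio (w : Om) : (Set.Iio w).Countable := by
  have h := Cardinal.mk_Iio_ord_toType w
  rw [← Cardinal.le_aleph0_iff_set_countable]
  rw [← Cardinal.lt_aleph_one_iff]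
  exact h

theorem countable_Iic (w : Om) : (Set.Iic w).Countable := by
  rw [← Set.Iio_union_right]
  exact (countable_Iio w).union (Set.countable_singleton w)

theorem mk_finsupp_Om : #(Om →₀ ℚ) = ℵ₁ := by
  haveI : Infinite Om := by
    rw [Cardinal.infinite_iff, mk_Om]
    exact Cardinal.aleph0_le_aleph 1
  rw [Cardinal.mk_finsupp_lift_of_infinite]
  simp only [Cardinal.lift_id, mk_Om]
  rw [Cardinal.mk_eq_aleph0 ℚ]
  exact max_eq_left (Cardinal.aleph0_le_aleph 1)

/-- The bookkeeping function. -/
theorem exists_book : ∃ T : Om → (Om →₀ ℝ),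
    (∀ γ β, T γ β ≠ 0 → β < γ) ∧
    (∀ γ, ∑ β ∈ (T γ).support, |T γ β| ≤ 1) ∧
    (∀ τ : Om →₀ ℚ, ∑ β ∈ τ.support, |τ β| ≤ 1 → ∀ C : Set Om, C.Countable →
      ∃ γ, γ ∉ C ∧ ∀ β, T γ β = (τ β : ℝ)) := by
  classical
  have hcard : #Om = #(Om × (Om →₀ ℚ)) := by
    rw [Cardinal.mk_prod]
    simp only [Cardinal.lift_id, mk_Om, mk_finsupp_Om]
    exact (Cardinal.mul_eq_self (Cardinal.aleph0_le_aleph 1)).symm
  obtain ⟨φ⟩ := Cardinal.eq.1 hcard
  let good : Om → Prop := fun γ => (∀ β ∈ ((φ γ).2).support, β < γ) ∧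
    ∑ β ∈ ((φ γ).2).support, |(φ γ).2 β| ≤ 1
  let T : Om → (Om →₀ ℝ) := fun γ =>
    if good γ then ((φ γ).2).mapRange (fun q : ℚ => (q : ℝ)) (by simp) else 0
  refine ⟨T, ?_, ?_, ?_⟩
  · intro γ β h
    by_cases hg : good γ
    · apply hg.1 β
      rw [Finsupp.mem_support_iff]
      intro h0
      apply h
      simp only [T, if_pos hg, Finsupp.mapRange_apply, h0]
      simp
    · exfalso
      apply h
      simp [T, if_neg hg]
  · intro γ
    by_cases hg : good γ
    · have h2 := hg.2
      have h3 : ∑ β ∈ (T γ).support, |T γ β| ≤ ∑ β ∈ ((φ γ).2).support, |T γ β| := by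
        apply Finset.sum_le_sum_of_subset_of_nonneg
        · simp only [T, if_pos hg]
          exact Finsupp.support_mapRange
        · intro i _ _
          exact abs_nonneg _
      refine h3.trans ?_
      have h4 : ∑ β ∈ ((φ γ).2).support, |T γ β|
          = ((∑ β ∈ ((φ γ).2).support, |(φ γ).2 β| : ℚ) : ℝ) := by
        push_cast
        apply Finset.sum_congr rfl
        intro β _
        simp only [T, if_pos hg, Finsupp.mapRange_apply]
      rw [h4]
      exact_mod_cast h2
    · simp [T, if_neg hg]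
  · intro τ hτ C hC
    have hC' : (C ∪ ⋃ β ∈ τ.support, Set.Iic β).Countable := by
      refine hC.union ?_
      exact Set.Countable.biUnion (Finset.countable_toSet _) (fun β _ => countable_Iic β)
    -- the fibre over τ
    let A : Set Om := (fun w : Om => φ.symm (w, τ)) '' Set.univ
    have hA : ¬ A.Countable := by
      intro hc
      have hinj : Function.Injective (fun w : Om => φ.symm (w, τ)) := by
        intro a b h
        have := φ.symm.injective h
        exact (Prod.ext_iff.1 this).1
      have h1 : #A = ℵ₁ := by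
        simp only [A]
        rw [Set.image_univ, Cardinal.mk_range_eq _ hinj, mk_Om]
      have h2 : #A ≤ ℵ₀ := Cardinal.le_aleph0_iff_set_countable.2 hc
      rw [h1] at h2
      exact absurd h2 (not_le.2 Cardinal.aleph0_lt_aleph_one)
    have hne : (A \ (C ∪ ⋃ β ∈ τ.support, Set.Iic β)).Nonempty := by
      by_contra hcon
      rw [Set.not_nonempty_iff_eq_empty, Set.diff_eq_empty] at hcon
      exact hA (hC'.mono hcon)
    obtain ⟨γ, ⟨w, -, hw⟩, hγ⟩ := hne
    have hφ : φ γ = (w, τ) := by
      rw [← hw]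
      simp
    refine ⟨γ, fun h => hγ (Or.inl h), ?_⟩
    have hg : good γ := by
      constructor
      · intro β hβ
        rw [hφ] at hβ
        by_contra hle
        apply hγ
        refine Or.inr ?_
        simp only [Set.mem_iUnion]
        exact ⟨β, hβ, not_lt.1 hle⟩
      · rw [hφ]
        exact hτ
    intro β
    simp only [T, if_pos hg, Finsupp.mapRange_apply, hφ]

end Pool.Agent.R268.Gur
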