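import Pool.Agent.R268.Gur.Main
import Pool.Agent.R268.Gur.Book

/-!
# Ordinal indexing of the basis, density
-/

open Set Cardinal Ordinal
open scoped ENNReal

namespace Pool.Agent.R268.Gur

/-- The ordinal of an element of the index type. -/
noncomputable def rk (w : Om) : Ordinal.{0} := ((Ordinal.ToType.mk.symm w : Set.Iio _) : Ordinal)

theorem rk_lt (w : Om) : rk w < (Cardinal.aleph 1).ord := (Ordinal.ToType.mk.symm w).2

theorem rk_lt_rk {v w : Om} : rk v < rk w ↔ v < w := by
  unfold rk
  rw [Subtype.coe_lt_coe, OrderIso.lt_iff_lt]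

theorem rk_mk {α : Ordinal.{0}} (h : α < (Cardinal.aleph 1).ord) :
    rk (Ordinal.ToType.mk ⟨α, h⟩) = α := by
  unfold rk
  rw [OrderIso.symm_apply_apply]

/-- Initial segments. -/
def seg (β : Ordinal.{0}) : Set Om := {w | rk w < β}

theorem isLowerSet_seg (β : Ordinal.{0}) : IsLowerSet (seg β) := by
  intro a b hab ha
  rcases eq_or_lt_of_le hab with h | h
  · rw [h]
    exact ha
  · exact lt_trans (rk_lt_rk.2 h) ha

variable (B : Book Om)

/-- The basis vector of index `α`. -/
noncomputable def bas (α : Ordinal.{0}) : XS B :=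
  open Classical in
  if h : α < (Cardinal.aleph 1).ord then vecX B (Ordinal.ToType.mk ⟨α, h⟩) else 0

theorem bas_of_lt {α : Ordinal.{0}} (h : α < (Cardinal.aleph 1).ord) :
    bas B α = vecX B (Ordinal.ToType.mk ⟨α, h⟩) := by
  unfold bas
  rw [dif_pos h]

theorem bas_rk (w : Om) : bas B (rk w) = vecX B w := by
  rw [bas_of_lt B (rk_lt w)]
  congr 1
  unfold rk
  exact OrderIso.apply_symm_apply _ w

/-- The projection of index `β`. -/
noncomputable def pro (β : Ordinal.{0}) : XS B →L[ℝ] XS B := PL B (seg β) (isLowerSet_seg β)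

theorem pro_vec (β : Ordinal.{0}) (w : Om) [Decidable (rk w < β)] :
    pro B β (vecX B w) = if rk w < β then vecX B w else 0 := by
  split_ifs with h
  · exact PL_vecX_mem B _ h
  · exact PL_vecX_notMem B _ h

theorem norm_pro_apply_le (β : Ordinal.{0}) (x : XS B) : ‖pro B β x‖ ≤ ‖x‖ :=
  norm_PL_apply_le B _ _ x

theorem isClopen_Ioi_ord (a : Ordinal.{0}) : IsClopen (Set.Ioi a) := by
  refine ⟨?_, isOpen_Ioi⟩
  have : Set.Ioi a = Set.Ici (Order.succ a) := by
    ext b
    rw [Set.mem_Ioi, Set.mem_Ici, Order.succ_le_iff]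
  rw [this]
  exact isClosed_Ici

theorem continuous_pro_vec (w : Om) : Continuous (fun β : Ordinal.{0} => pro B β (vecX B w)) := by
  classical
  simp only [pro_vec]
  apply Continuous.if
  · intro a ha
    have h1 : {x : Ordinal.{0} | rk w < x} = Set.Ioi (rk w) := rfl
    rw [h1, (isClopen_Ioi_ord (rk w)).frontier_eq] at ha
    exact absurd ha (Set.notMem_empty a)
  · exact continuous_const
  · exact continuous_const

theorem continuous_pro_span {x : XS B} (hx : x ∈ Submodule.span ℝ (Set.range (vecX B))) :
    Continuous (fun β : Ordinal.{0} => pro B β x) := by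
  induction hx using Submodule.span_induction with
  | mem x hx =>
    obtain ⟨w, rfl⟩ := hx
    exact continuous_pro_vec B w
  | zero =>
    simp only [map_zero]
    exact continuous_const
  | add x y _ _ hx hy =>
    simp only [map_add]
    exact hx.add hy
  | smul c x _ hx =>
    simp only [map_smul]
    exact hx.const_smul c

theorem continuous_pro (x : XS B) : Continuous (fun β : Ordinal.{0} => pro B β x) := by
  apply continuous_of_uniform_approx_of_continuous
  intro u hu
  obtain ⟨ε, hε, hεu⟩ := Metric.mem_uniformity_dist.1 hu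
  obtain ⟨y, hy, hxy⟩ := Metric.mem_closure_iff.1 ((dense_span_vecX B) x) ε hε
  refine ⟨fun β => pro B β y, continuous_pro_span B hy, ?_⟩
  intro β
  apply hεu
  rw [dist_eq_norm, ← map_sub]
  rw [dist_eq_norm] at hxy
  exact lt_of_le_of_lt (norm_pro_apply_le B β _) hxy

theorem bas_span : Dense ((Submodule.span ℝ (bas B '' Set.Iio (Cardinal.aleph 1).ord) :
    Submodule ℝ (XS B)) : Set (XS B)) := by
  have h : bas B '' Set.Iio (Cardinal.aleph 1).ord = Set.range (vecX B) := by
    ext x
    constructor
    · rintro ⟨α, hα, rfl⟩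
      rw [bas_of_lt B hα]
      exact ⟨_, rfl⟩
    · rintro ⟨w, rfl⟩
      exact ⟨rk w, rk_lt w, bas_rk B w⟩
  rw [h]
  exact dense_span_vecX B

theorem pro_last : pro B (Cardinal.aleph 1).ord = ContinuousLinearMap.id ℝ (XS B) := by
  apply ContinuousLinearMap.ext_on (dense_span_vecX B)
  rintro _ ⟨w, rfl⟩
  rw [ContinuousLinearMap.id_apply]
  exact PL_vecX_mem B _ (rk_lt w)

theorem pro_comp (β : Ordinal.{0}) : (pro B β).comp (pro B β) = pro B β := by
  apply ContinuousLinearMap.ext_on (dense_span_vecX B)
  rintro _ ⟨w, rfl⟩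
  classical
  rw [ContinuousLinearMap.comp_apply]
  by_cases h : rk w < β
  · rw [pro_vec, if_pos h, pro_vec, if_pos h]
  · rw [pro_vec, if_neg h, map_zero]

theorem closure_add_mem {X : Type*} [NormedAddCommGroup X] {s : Set X}
    (hs : ∀ a ∈ s, ∀ b ∈ s, a + b ∈ s) {x y : X} (hx : x ∈ closure s) (hy : y ∈ closure s) :
    x + y ∈ closure s :=
  map_mem_closure₂ continuous_add hx hy hs

/-- Rational combinations of the basis. -/
noncomputable def ratComb (q : Om →₀ ℚ) : XS B := q.sum (fun w r => (r : ℝ) • vecX B w)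

theorem ratComb_add (p q : Om →₀ ℚ) : ratComb B (p + q) = ratComb B p + ratComb B q := by
  unfold ratComb
  apply Finsupp.sum_add_index'
  · intro w
    simp
  · intro w r s
    rw [Rat.cast_add, add_smul]

theorem ratComb_smul (r : ℚ) (q : Om →₀ ℚ) : ratComb B (r • q) = (r : ℝ) • ratComb B q := by
  unfold ratComb
  rw [Finsupp.sum_smul_index (by intro w; simp), Finsupp.smul_sum]
  apply Finsupp.sum_congr
  intro w _
  rw [Rat.cast_mul, mul_smul]

theorem dense_ratComb : Dense (Set.range (ratComb B)) := by
  have h : ∀ x ∈ Submodule.span ℝ (Set.range (vecX B)), x ∈ closure (Set.range (ratComb B)) := by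
    intro x hx
    induction hx using Submodule.span_induction with
    | mem x hx =>
      obtain ⟨w, rfl⟩ := hx
      apply subset_closure
      refine ⟨Finsupp.single w 1, ?_⟩
      unfold ratComb
      rw [Finsupp.sum_single_index]
      · simp
      · simp
    | zero =>
      apply subset_closure
      exact ⟨0, by simp [ratComb]⟩
    | add x y _ _ hx hy =>
      refine closure_add_mem ?_ hx hy
      rintro _ ⟨p, rfl⟩ _ ⟨q, rfl⟩
      exact ⟨p + q, ratComb_add B p q⟩
    | smul c x _ hx =>
      have h1 : ∀ r : ℚ, (r : ℝ) • x ∈ closure (Set.range (ratComb B)) := by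
        intro r
        refine map_mem_closure (continuous_const_smul (r : ℝ)) hx ?_
        rintro _ ⟨q, rfl⟩
        exact ⟨r • q, ratComb_smul B r q⟩
      have h2 : c ∈ closure (Set.range ((↑) : ℚ → ℝ)) := Rat.denseRange_cast c
      have h3 : c • x ∈ closure (closure (Set.range (ratComb B))) := by
        refine map_mem_closure (f := fun c : ℝ => c • x) (by fun_prop) h2 ?_
        rintro _ ⟨r, rfl⟩
        exact h1 r
      rwa [closure_closure] at h3
  intro x
  have h1 := closure_mono (fun y hy => h y hy) ((dense_span_vecX B) x)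
  rwa [closure_closure] at h1

theorem mk_le_of_dense {D : Set (XS B)} (hD : Dense D) : ℵ₁ ≤ #D := by
  have h : ∀ w : Om, ∃ d : D, dist (vecX B w) (d : XS B) < 1 / 2 := by
    intro w
    obtain ⟨d, hd, hdd⟩ := Metric.mem_closure_iff.1 (hD (vecX B w)) (1 / 2) (by norm_num)
    exact ⟨⟨d, hd⟩, hdd⟩
  choose d hd using h
  have hinj : Function.Injective d := by
    intro v w hvw
    by_contra hne
    have h1 := one_le_norm_vecX_sub B hne
    rw [← dist_eq_norm] at h1
    have h2 : dist (vecX B v) (vecX B w) ≤ dist (vecX B v) (d v : XS B)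
        + dist (d v : XS B) (vecX B w) := dist_triangle _ _ _
    have h3 := hd v
    have h4 := hd w
    rw [← hvw, dist_comm] at h4
    linarith
  exact mk_Om.symm.le.trans (Cardinal.mk_le_of_injective hinj)

theorem mk_range_ratComb : #(Set.range (ratComb B)) = ℵ₁ := by
  apply le_antisymm
  · exact Cardinal.mk_range_le.trans mk_finsupp_Om.le
  · exact mk_le_of_dense B (dense_ratComb B)

/-- A rich bookkeeping function on the first uncountable ordinal. -/
theorem exists_rich : ∃ B : Book Om, Rich B := by
  obtain ⟨T, h1, h2, h3⟩ := exists_book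
  exact ⟨⟨T, h1, h2⟩, fun τ hτ C hC => h3 τ hτ C hC.countable⟩

end Pool.Agent.R268.Gur
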