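import Mathlib

/-!
# Extension by well-founded recursion and defects
-/

open Set

namespace Pool.Agent.R268.Gur

variable {W : Type} [LinearOrder W] [WellFoundedLT W]

/-- Extend the values of `y` on `L` to all of `W` by the recursion given by `T`. -/
noncomputable def ext (T : W → (W →₀ ℝ)) (L : Set W) (y : W → ℝ) : W → ℝ :=
  open Classical in
  (wellFounded_lt (α := W)).fix (fun γ rec => if γ ∈ L then y γ else
    ∑ β ∈ (T γ).support, T γ β * (if h : β < γ then rec β h else 0))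

open Classical in
theorem ext_eq (T : W → (W →₀ ℝ)) (hT : ∀ γ β, T γ β ≠ 0 → β < γ) (L : Set W) (y : W → ℝ)
    (γ : W) : ext T L y γ = if γ ∈ L then y γ else
      ∑ β ∈ (T γ).support, T γ β * ext T L y β := by
  unfold ext
  rw [WellFounded.fix_eq]
  split_ifs with h
  · rfl
  · apply Finset.sum_congr rfl
    intro β hβ
    rw [dif_pos (hT γ β (Finsupp.mem_support_iff.1 hβ))]

theorem ext_of_mem (T : W → (W →₀ ℝ)) (hT : ∀ γ β, T γ β ≠ 0 → β < γ) {L : Set W} (y : W → ℝ)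
    {γ : W} (h : γ ∈ L) : ext T L y γ = y γ := by
  classical
  rw [ext_eq T hT, if_pos h]

theorem ext_of_notMem (T : W → (W →₀ ℝ)) (hT : ∀ γ β, T γ β ≠ 0 → β < γ) {L : Set W}
    (y : W → ℝ) {γ : W} (h : γ ∉ L) :
    ext T L y γ = ∑ β ∈ (T γ).support, T γ β * ext T L y β := by
  classical
  rw [ext_eq T hT, if_neg h]

/-- The defect of `y` at `γ`. -/
noncomputable def dfct (T : W → (W →₀ ℝ)) : (W → ℝ) →ₗ[ℝ] (W → ℝ) where
  toFun y := fun γ => y γ - ∑ β ∈ (T γ).support, T γ β * y β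
  map_add' x y := by
    funext γ
    simp only [Pi.add_apply, mul_add, Finset.sum_add_distrib]
    ring
  map_smul' c x := by
    funext γ
    simp only [Pi.smul_apply, smul_eq_mul, RingHom.id_apply, mul_sub, Finset.mul_sum]
    congr 1
    apply Finset.sum_congr rfl
    intro β _
    ring

theorem dfct_apply (T : W → (W →₀ ℝ)) (y : W → ℝ) (γ : W) :
    dfct T y γ = y γ - ∑ β ∈ (T γ).support, T γ β * y β := rfl

/-- Uniqueness: a function vanishing on `L` with defect vanishing off `L` vanishes. -/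
theorem eq_zero_of_dfct (T : W → (W →₀ ℝ)) (hT : ∀ γ β, T γ β ≠ 0 → β < γ) {L : Set W}
    {z : W → ℝ} (h1 : ∀ γ ∈ L, z γ = 0) (h2 : ∀ γ, γ ∉ L → dfct T z γ = 0) : z = 0 := by
  funext γ
  induction γ using WellFoundedLT.induction with
  | _ γ ih =>
    by_cases h : γ ∈ L
    · exact h1 γ h
    · have h3 := h2 γ h
      rw [dfct_apply, sub_eq_zero] at h3
      rw [h3]
      apply Finset.sum_eq_zero
      intro β hβ
      rw [ih β (hT γ β (Finsupp.mem_support_iff.1 hβ))]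
      simp

theorem dfct_ext (T : W → (W →₀ ℝ)) (hT : ∀ γ β, T γ β ≠ 0 → β < γ) {L : Set W}
    (y : W → ℝ) {γ : W} (h : γ ∉ L) : dfct T (ext T L y) γ = 0 := by
  rw [dfct_apply, ext_of_notMem T hT y h, sub_self]

/-- Characterisation of `ext`. -/
theorem ext_unique (T : W → (W →₀ ℝ)) (hT : ∀ γ β, T γ β ≠ 0 → β < γ) {L : Set W}
    {y z : W → ℝ} (h1 : ∀ γ ∈ L, z γ = y γ) (h2 : ∀ γ, γ ∉ L → dfct T z γ = 0) :
    z = ext T L y := by
  rw [← sub_eq_zero]
  apply eq_zero_of_dfct T hT (L := L)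
  · intro γ hγ
    rw [Pi.sub_apply, h1 γ hγ, ext_of_mem T hT y hγ, sub_self]
  · intro γ hγ
    rw [map_sub, Pi.sub_apply, h2 γ hγ, dfct_ext T hT y hγ, sub_self]

theorem ext_add (T : W → (W →₀ ℝ)) (hT : ∀ γ β, T γ β ≠ 0 → β < γ) (L : Set W)
    (x y : W → ℝ) : ext T L (x + y) = ext T L x + ext T L y := by
  symm
  apply ext_unique T hT
  · intro γ hγ
    rw [Pi.add_apply, ext_of_mem T hT _ hγ, ext_of_mem T hT _ hγ, Pi.add_apply]
  · intro γ hγ
    rw [map_add, Pi.add_apply, dfct_ext T hT _ hγ, dfct_ext T hT _ hγ, add_zero]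

theorem ext_smul (T : W → (W →₀ ℝ)) (hT : ∀ γ β, T γ β ≠ 0 → β < γ) (L : Set W)
    (c : ℝ) (x : W → ℝ) : ext T L (c • x) = c • ext T L x := by
  symm
  apply ext_unique T hT
  · intro γ hγ
    rw [Pi.smul_apply, ext_of_mem T hT _ hγ, Pi.smul_apply]
  · intro γ hγ
    rw [map_smul, Pi.smul_apply, dfct_ext T hT _ hγ, smul_zero]

theorem abs_ext_le (T : W → (W →₀ ℝ)) (hT : ∀ γ β, T γ β ≠ 0 → β < γ)
    (hT1 : ∀ γ, ∑ β ∈ (T γ).support, |T γ β| ≤ 1) (L : Set W) (y : W → ℝ) {C : ℝ}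
    (hC : 0 ≤ C) (hy : ∀ γ ∈ L, |y γ| ≤ C) (γ : W) : |ext T L y γ| ≤ C := by
  induction γ using WellFoundedLT.induction with
  | _ γ ih =>
    by_cases h : γ ∈ L
    · rw [ext_of_mem T hT y h]
      exact hy γ h
    · rw [ext_of_notMem T hT y h]
      calc |∑ β ∈ (T γ).support, T γ β * ext T L y β|
          ≤ ∑ β ∈ (T γ).support, |T γ β * ext T L y β| := Finset.abs_sum_le_sum_abs _ _
        _ ≤ ∑ β ∈ (T γ).support, |T γ β| * C := by
            apply Finset.sum_le_sum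
            intro β hβ
            rw [abs_mul]
            exact mul_le_mul_of_nonneg_left (ih β (hT γ β (Finsupp.mem_support_iff.1 hβ)))
              (abs_nonneg _)
        _ = (∑ β ∈ (T γ).support, |T γ β|) * C := by rw [Finset.sum_mul]
        _ ≤ 1 * C := mul_le_mul_of_nonneg_right (hT1 γ) hC
        _ = C := one_mul C

/-- For a lower set the defect of the extension is the truncated defect. -/
theorem dfct_ext_lower (T : W → (W →₀ ℝ)) (hT : ∀ γ β, T γ β ≠ 0 → β < γ) {L : Set W}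
    (hL : IsLowerSet L) (y : W → ℝ) {γ : W} (h : γ ∈ L) :
    dfct T (ext T L y) γ = dfct T y γ := by
  rw [dfct_apply, dfct_apply, ext_of_mem T hT y h]
  congr 1
  apply Finset.sum_congr rfl
  intro β hβ
  rw [ext_of_mem T hT y (hL (hT γ β (Finsupp.mem_support_iff.1 hβ)).le h)]

/-- The sum of `T γ` over any finite set containing the support. -/
theorem sum_support_eq (T : W → (W →₀ ℝ)) (γ : W) (S : Finset W)
    (hS : (T γ).support ⊆ S) (y : W → ℝ) :
    ∑ β ∈ (T γ).support, T γ β * y β = ∑ β ∈ S, T γ β * y β := by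
  apply Finset.sum_subset hS
  intro β _ hβ
  rw [Finsupp.notMem_support_iff.1 hβ, zero_mul]

/-- The vectors of the basis (as functions). -/
noncomputable def vec (T : W → (W →₀ ℝ)) (α : W) : W → ℝ :=
  ext T (Set.Iic α) (Pi.single α 1)

theorem vec_self (T : W → (W →₀ ℝ)) (hT : ∀ γ β, T γ β ≠ 0 → β < γ) (α : W) :
    vec T α α = 1 := by
  unfold vec
  rw [ext_of_mem T hT _ (Set.mem_Iic.2 le_rfl)]
  simp

theorem vec_of_lt (T : W → (W →₀ ℝ)) (hT : ∀ γ β, T γ β ≠ 0 → β < γ) {α γ : W} (h : γ < α) :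
    vec T α γ = 0 := by
  unfold vec
  rw [ext_of_mem T hT _ (Set.mem_Iic.2 h.le), Pi.single_eq_of_ne h.ne]

theorem dfct_vec (T : W → (W →₀ ℝ)) (hT : ∀ γ β, T γ β ≠ 0 → β < γ) (α : W) :
    dfct T (vec T α) = Pi.single α 1 := by
  funext γ
  by_cases h : γ ∈ Set.Iic α
  · unfold vec
    rw [dfct_ext_lower T hT (isLowerSet_Iic α) _ h, dfct_apply]
    have : ∑ β ∈ (T γ).support, T γ β * (Pi.single α (1 : ℝ) : W → ℝ) β = 0 := by
      apply Finset.sum_eq_zero
      intro β hβ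
      have h1 : β < α := lt_of_lt_of_le (hT γ β (Finsupp.mem_support_iff.1 hβ)) h
      rw [Pi.single_eq_of_ne h1.ne, mul_zero]
    rw [this, sub_zero]
  · unfold vec
    rw [dfct_ext T hT _ h, Pi.single_eq_of_ne]
    intro h1
    apply h
    rw [h1]
    exact Set.mem_Iic.2 le_rfl

theorem dfct_injective (T : W → (W →₀ ℝ)) (hT : ∀ γ β, T γ β ≠ 0 → β < γ) {y z : W → ℝ}
    (h : dfct T y = dfct T z) : y = z := by
  rw [← sub_eq_zero]
  apply eq_zero_of_dfct T hT (L := ∅)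
  · intro γ hγ
    exact absurd hγ (Set.notMem_empty γ)
  · intro γ _
    rw [map_sub, h, sub_self, Pi.zero_apply]

theorem abs_vec_le (T : W → (W →₀ ℝ)) (hT : ∀ γ β, T γ β ≠ 0 → β < γ)
    (hT1 : ∀ γ, ∑ β ∈ (T γ).support, |T γ β| ≤ 1) (α γ : W) : |vec T α γ| ≤ 1 := by
  apply abs_ext_le T hT hT1 _ _ zero_le_one
  intro β _
  classical
  rw [Pi.single_apply]
  split_ifs
  · simp
  · simp

end Pool.Agent.R268.Gur
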