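import Mathlib

/-!
# Auxiliary lemmas: norming functionals, Hahn-Banach over a finite sup-norm space, rounding
-/

open Set

namespace Pool.Agent.R268.Gur

/-- Finitely many functionals norm a finite-dimensional space up to `1 - η`. -/
theorem exists_norming (F : Type*) [NormedAddCommGroup F] [NormedSpace ℝ F]
    [FiniteDimensional ℝ F] {η : ℝ} (hη : 0 < η) :
    ∃ (t : Finset F) (g : F → (F →L[ℝ] ℝ)), (∀ x, ‖g x‖ ≤ 1) ∧
      ∀ y : F, y ≠ 0 → ∃ x ∈ t, (1 - η) * ‖y‖ ≤ |g x y| := by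
  haveI : ProperSpace F := FiniteDimensional.proper_real F
  obtain ⟨t, hts, htf, hcov⟩ := (isCompact_sphere (0 : F) 1).finite_cover_balls hη
  have hg : ∀ x : F, ∃ g : F →L[ℝ] ℝ, ‖g‖ ≤ 1 ∧ g x = ‖x‖ := by
    intro x
    obtain ⟨g, h1, h2⟩ := exists_dual_vector'' ℝ x
    exact ⟨g, h1, by simpa using h2⟩
  choose g hg1 hg2 using hg
  refine ⟨htf.toFinset, g, hg1, ?_⟩
  intro y hy
  have hy' : 0 < ‖y‖ := norm_pos_iff.2 hy
  have h1 : (‖y‖⁻¹ • y) ∈ Metric.sphere (0 : F) 1 := by
    rw [mem_sphere_zero_iff_norm, norm_smul, norm_inv, norm_norm, inv_mul_cancel₀ hy'.ne']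
  have h2 := hcov h1
  simp only [Set.mem_iUnion, Metric.mem_ball] at h2
  obtain ⟨x, hx, hd⟩ := h2
  refine ⟨x, htf.mem_toFinset.2 hx, ?_⟩
  have hx1 : ‖x‖ = 1 := by
    have := hts hx
    rwa [mem_sphere_zero_iff_norm] at this
  have h3 : |g x (‖y‖⁻¹ • y) - g x x| ≤ η := by
    rw [← map_sub]
    calc |g x (‖y‖⁻¹ • y - x)| ≤ ‖g x‖ * ‖‖y‖⁻¹ • y - x‖ := (g x).le_opNorm _
      _ ≤ 1 * ‖‖y‖⁻¹ • y - x‖ := mul_le_mul_of_nonneg_right (hg1 x) (norm_nonneg _)
      _ ≤ η := by
          rw [one_mul, ← dist_eq_norm]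
          exact hd.le
  rw [hg2, hx1] at h3
  have h4 : 1 - η ≤ g x (‖y‖⁻¹ • y) := by
    have := abs_le.1 h3
    linarith [this.1]
  rw [map_smul, smul_eq_mul] at h4
  have h5 : (1 - η) * ‖y‖ ≤ g x y := by
    have := mul_le_mul_of_nonneg_right h4 hy'.le
    calc (1 - η) * ‖y‖ ≤ ‖y‖⁻¹ * g x y * ‖y‖ := this
      _ = g x y := by field_simp
  exact h5.trans (le_abs_self _)

/-- Hahn-Banach over a finite product with the sup norm. -/
theorem exists_coeff {ι E : Type*} [Fintype ι] [AddCommGroup E] [Module ℝ E]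
    (ρ : E →ₗ[ℝ] (ι → ℝ)) (g : E →ₗ[ℝ] ℝ) {c : ℝ} (hc : 0 ≤ c)
    (h : ∀ a, |g a| ≤ c * ‖ρ a‖) :
    ∃ t : ι → ℝ, ∑ i, |t i| ≤ c ∧ ∀ a, g a = ∑ i, t i * ρ a i := by
  classical
  obtain ⟨s, hs⟩ := (ρ.rangeRestrict).exists_rightInverse_of_surjective
    (LinearMap.range_eq_top.2 ρ.surjective_rangeRestrict)
  have hs' : ∀ r : LinearMap.range ρ, ρ (s r) = r := by
    intro r
    have := congrArg (fun L => ((L r : LinearMap.range ρ) : ι → ℝ)) hs
    simpa using this
  let f0 : LinearMap.range ρ →L[ℝ] ℝ := (g ∘ₗ s).mkContinuous c (by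
    intro r
    have := h (s r)
    rw [hs'] at this
    exact this)
  obtain ⟨G, hG1, hG2⟩ := exists_extension_norm_eq (LinearMap.range ρ) f0
  have hGn : ‖G‖ ≤ c := by
    rw [hG2]
    exact LinearMap.mkContinuous_norm_le _ hc _
  have hGsum : ∀ r : ι → ℝ, G r = ∑ i, G (Pi.single i 1) * r i := by
    intro r
    have h1 : r = ∑ i, r i • (Pi.single i (1 : ℝ) : ι → ℝ) := by
      funext j
      rw [Finset.sum_apply, Finset.sum_eq_single j]
      · simp
      · intro i _ hij
        simp [Pi.single_eq_of_ne hij.symm]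
      · intro hj
        exact absurd (Finset.mem_univ j) hj
    conv_lhs => rw [h1]
    rw [map_sum]
    apply Finset.sum_congr rfl
    intro i _
    rw [map_smul, smul_eq_mul, mul_comm]
  refine ⟨fun i => G (Pi.single i 1), ?_, ?_⟩
  · -- evaluate at the sign vector
    let sg : ι → ℝ := fun i => SignType.sign (G (Pi.single i 1))
    have h1 : G sg = ∑ i, |G (Pi.single i 1)| := by
      rw [hGsum]
      apply Finset.sum_congr rfl
      intro i _
      simp only [sg]
      rw [self_mul_sign]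
    have h2 : ‖sg‖ ≤ 1 := by
      rw [pi_norm_le_iff_of_nonneg zero_le_one]
      intro i
      simp only [sg]
      rcases SignType.trichotomy (SignType.sign (G (Pi.single i (1 : ℝ)))) with h | h | h <;>
        rw [h] <;> simp
    calc ∑ i, |G (Pi.single i 1)| = G sg := h1.symm
      _ ≤ |G sg| := le_abs_self _
      _ ≤ ‖G‖ * ‖sg‖ := G.le_opNorm _
      _ ≤ c * 1 := mul_le_mul hGn h2 (norm_nonneg _) hc
      _ = c := mul_one c
  · intro a
    rw [← hGsum]
    have h1 := hG1 ⟨ρ a, LinearMap.mem_range_self ρ a⟩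
    rw [show G (ρ a) = f0 ⟨ρ a, LinearMap.mem_range_self ρ a⟩ from h1]
    change g a = g (s ⟨ρ a, LinearMap.mem_range_self ρ a⟩)
    have h2 := h (a - s ⟨ρ a, LinearMap.mem_range_self ρ a⟩)
    rw [map_sub ρ, hs', sub_self, norm_zero, mul_zero, map_sub] at h2
    have h3 := abs_nonpos_iff.1 h2
    linarith

theorem exists_round (t : ℝ) {η : ℝ} (hη : 0 < η) :
    ∃ q : ℚ, |(q : ℝ)| ≤ |t| ∧ |(q : ℝ) - t| ≤ η := by
  rcases lt_trichotomy t 0 with h | h | h
  · obtain ⟨q, h1, h2⟩ := exists_rat_btwn (show t < min 0 (t + η) from lt_min h (by linarith))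
    have h3 := lt_min_iff.1 h2
    refine ⟨q, ?_, ?_⟩
    · rw [abs_of_neg h, abs_of_neg h3.1]
      linarith
    · rw [abs_of_nonneg (by linarith)]
      linarith [h3.2]
  · refine ⟨0, by simp [h], ?_⟩
    simp [h, hη.le]
  · obtain ⟨q, h1, h2⟩ := exists_rat_btwn (show max 0 (t - η) < t from max_lt h (by linarith))
    have h3 := max_lt_iff.1 h1
    refine ⟨q, ?_, ?_⟩
    · rw [abs_of_pos h, abs_of_pos h3.1]
      linarith
    · rw [abs_of_nonpos (by linarith)]
      linarith [h3.2]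

/-- Choose distinct elements with prescribed properties. -/
theorem exists_distinct {ι W : Type*} [DecidableEq ι] (p : ι → W → Prop)
    (hp : ∀ i, ∀ C : Set W, C.Finite → ∃ γ, γ ∉ C ∧ p i γ) (C : Set W) (hC : C.Finite)
    (hne : Nonempty W) (s : Finset ι) :
    ∃ γ : ι → W, Set.InjOn γ s ∧ ∀ i ∈ s, γ i ∉ C ∧ p i (γ i) := by
  induction s using Finset.induction_on with
  | empty =>
    exact ⟨fun _ => hne.some, by simp, by simp⟩
  | insert i s his ih =>
    obtain ⟨γ, h1, h2⟩ := ih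
    obtain ⟨w, hw1, hw2⟩ := hp i (C ∪ γ '' s) (hC.union (s.finite_toSet.image γ))
    refine ⟨Function.update γ i w, ?_, ?_⟩
    · intro j hj k hk hjk
      rw [Finset.coe_insert] at hj hk
      rcases hj with rfl | hj
      · rcases hk with rfl | hk
        · rfl
        · have hkj : k ≠ j := fun h => his (h ▸ hk)
          rw [Function.update_self, Function.update_of_ne hkj] at hjk
          exact absurd (Or.inr ⟨k, hk, hjk.symm⟩) hw1
      · have hji : j ≠ i := fun h => his (h ▸ hj)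
        rcases hk with rfl | hk
        · rw [Function.update_self, Function.update_of_ne hji] at hjk
          exact absurd (Or.inr ⟨j, hj, hjk⟩) hw1
        · have hki : k ≠ i := fun h => his (h ▸ hk)
          rw [Function.update_of_ne hji, Function.update_of_ne hki] at hjk
          exact h1 hj hk hjk
    · intro j hj
      rcases Finset.mem_insert.1 hj with rfl | hj
      · rw [Function.update_self]
        exact ⟨fun h => hw1 (Or.inl h), hw2⟩
      · have hji : j ≠ i := fun h => his (h ▸ hj)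
        rw [Function.update_of_ne hji]
        exact h2 j hj

end Pool.Agent.R268.Gur
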