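import Pool.Agent.R268.Gur.Space
import Pool.Agent.R268.Gur.Lemmas

/-!
# The space attached to a rich bookkeeping function is a Gurarii space
-/

open Set
open scoped ENNReal

namespace Pool.Agent.R268.Gur

variable {W : Type} [LinearOrder W] [WellFoundedLT W] (B : Book W)

/-- Richness: every rational finitely supported functional of norm at most one occurs outside
every finite set. -/
def Rich (B : Book W) : Prop :=
  ∀ τ : W →₀ ℚ, ∑ β ∈ τ.support, |τ β| ≤ 1 → ∀ C : Set W, C.Finite →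
      ∃ γ, γ ∉ C ∧ ∀ β, B.T γ β = (τ β : ℝ)

theorem sum_T_eq {γ : W} {τ : W →₀ ℚ} (h : ∀ β, B.T γ β = (τ β : ℝ)) (y : W → ℝ) :
    ∑ β ∈ (B.T γ).support, B.T γ β * y β = ∑ β ∈ τ.support, (τ β : ℝ) * y β := by
  have hs : (B.T γ).support = τ.support := by
    ext β
    rw [Finsupp.mem_support_iff, Finsupp.mem_support_iff, h β]
    norm_cast
  rw [hs]
  apply Finset.sum_congr rfl
  intro β _
  rw [h β]

/-- Fill in from a finite set. -/
noncomputable def fill (S : Finset W) : (W → ℝ) →ₗ[ℝ] XS B where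
  toFun z := ⟨⟨ext B.T S z, linf_mem (C := ∑ γ ∈ S, |z γ|) (fun w =>
        abs_ext_le B.T B.lt B.sum_le S z (Finset.sum_nonneg (fun _ _ => abs_nonneg _))
        (fun γ hγ => Finset.single_le_sum (f := fun γ => |z γ|)
          (fun _ _ => abs_nonneg _) hγ) w)⟩, V0_le_XS B (by
          rw [mem_V0]
          refine S.finite_toSet.subset ?_
          intro γ hγ
          by_contra hcon
          exact hγ (dfct_ext B.T B.lt z hcon))⟩
  map_add' x y := by
    apply Subtype.ext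
    apply Subtype.ext
    exact ext_add B.T B.lt S x y
  map_smul' c x := by
    apply Subtype.ext
    apply Subtype.ext
    exact ext_smul B.T B.lt S c x

theorem coe_fill (S : Finset W) (z : W → ℝ) :
    (((fill B S z : XS B) : Linf W) : W → ℝ) = ext B.T S z := rfl

theorem XS_norm_le {x : XS B} {C : ℝ} (hC : 0 ≤ C) (h : ∀ w, |((x : Linf W) : W → ℝ) w| ≤ C) :
    ‖x‖ ≤ C :=
  linf_norm_le hC h

theorem abs_le_XS_norm (x : XS B) (w : W) : |((x : Linf W) : W → ℝ) w| ≤ ‖x‖ :=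
  abs_le_linf_norm (x : Linf W) w

/-- Perturb an embedding of a finite-dimensional space into `V0`. -/
theorem exists_perturb {E : Type*} [NormedAddCommGroup E] [NormedSpace ℝ E]
    [FiniteDimensional ℝ E] (e : E →ₗ[ℝ] XS B) {δ : ℝ} (hδ : 0 < δ) :
    ∃ (e₁ : E →ₗ[ℝ] XS B) (S : Finset W), (∀ a, ‖e₁ a - e a‖ ≤ δ * ‖a‖) ∧
      ∀ a, ∀ γ, γ ∉ S → dfct B.T ((e₁ a : XS B) : Linf W) γ = 0 := by
  classical
  let b := Module.finBasis ℝ E
  let c : Fin (Module.finrank ℝ E) → (E →L[ℝ] ℝ) := fun i =>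
    LinearMap.toContinuousLinearMap (b.coord i)
  let C : ℝ := ∑ i, ‖c i‖
  have hC : 0 ≤ C := Finset.sum_nonneg (fun i _ => norm_nonneg _)
  have hη : 0 < δ / (C + 1) := by positivity
  have hv : ∀ i, ∃ v : Linf W, v ∈ V0 B ∧ dist ((e (b i) : XS B) : Linf W) v < δ / (C + 1) := by
    intro i
    have h1 : ((e (b i) : XS B) : Linf W) ∈ closure (V0 B : Set (Linf W)) := (e (b i)).2
    obtain ⟨v, hv, hd⟩ := Metric.mem_closure_iff.1 h1 _ hη
    exact ⟨v, hv, hd⟩
  choose v hv hd using hv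
  let vX : Fin (Module.finrank ℝ E) → XS B := fun i => ⟨v i, V0_le_XS B (hv i)⟩
  let e₁ : E →ₗ[ℝ] XS B := ∑ i, (b.coord i).smulRight (vX i)
  have he₁ : ∀ a, e₁ a = ∑ i, b.coord i a • vX i := by
    intro a
    simp only [e₁, LinearMap.sum_apply, LinearMap.smulRight_apply]
  have he : ∀ a, e a = ∑ i, b.coord i a • e (b i) := by
    intro a
    conv_lhs => rw [← b.sum_repr a]
    rw [map_sum]
    simp only [map_smul, Module.Basis.coord_apply]
  have hvd : ∀ i, ‖vX i - e (b i)‖ ≤ δ / (C + 1) := by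
    intro i
    have h1 := hd i
    rw [dist_comm, dist_eq_norm] at h1
    exact h1.le
  refine ⟨e₁, Finset.univ.biUnion (fun i => ((mem_V0 B).1 (hv i)).toFinset), ?_, ?_⟩
  · intro a
    rw [he₁, he, ← Finset.sum_sub_distrib]
    calc ‖∑ i, (b.coord i a • vX i - b.coord i a • e (b i))‖
        ≤ ∑ i, ‖b.coord i a • vX i - b.coord i a • e (b i)‖ := norm_sum_le _ _
      _ ≤ ∑ i, (‖c i‖ * ‖a‖) * (δ / (C + 1)) := by
          apply Finset.sum_le_sum
          intro i _
          rw [← smul_sub, norm_smul]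
          apply mul_le_mul _ (hvd i) (norm_nonneg _) (by positivity)
          exact (c i).le_opNorm a
      _ = C * (δ / (C + 1)) * ‖a‖ := by
          rw [← Finset.sum_mul, ← Finset.sum_mul]
          ring
      _ ≤ δ * ‖a‖ := by
          apply mul_le_mul_of_nonneg_right _ (norm_nonneg _)
          rw [mul_div_assoc', div_le_iff₀ (by positivity)]
          nlinarith
  · intro a γ hγ
    have h1 : (((e₁ a : XS B) : Linf W) : W → ℝ) = ∑ i, b.coord i a • ((v i : Linf W) : W → ℝ) := by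
      rw [he₁]
      rw [Submodule.coe_sum, lp.coeFn_sum]
      rfl
    rw [h1, map_sum, Finset.sum_apply]
    apply Finset.sum_eq_zero
    intro i _
    rw [map_smul, Pi.smul_apply]
    have h2 : dfct B.T (v i) γ = 0 := by
      by_contra hcon
      apply hγ
      simp only [Finset.mem_biUnion, Finset.mem_univ, true_and, Set.Finite.mem_toFinset]
      exact ⟨i, hcon⟩
    rw [h2, smul_zero]

/-- Approximate a functional on `E` by a rational functional supported on `S`. -/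
theorem exists_tau {E : Type*} [NormedAddCommGroup E] [NormedSpace ℝ E]
    (e₁ : E →ₗ[ℝ] XS B) (S : Finset W) {δ : ℝ} (hδ : 0 < δ) (hδ1 : δ ≤ 1 / 4)
    (h1 : ∀ a, ‖e₁ a‖ ≤ (1 + δ) * ‖a‖) (h2 : ∀ a, (1 - δ) * ‖a‖ ≤ ‖e₁ a‖)
    (hS : ∀ a, ∀ γ, γ ∉ S → dfct B.T ((e₁ a : XS B) : Linf W) γ = 0)
    (g : E →ₗ[ℝ] ℝ) (hg : ∀ a, |g a| ≤ ‖a‖) :
    ∃ τ : W →₀ ℚ, ∑ β ∈ τ.support, |τ β| ≤ 1 ∧
      ∀ a, |∑ β ∈ τ.support, (τ β : ℝ) * ((e₁ a : XS B) : Linf W) β - g a| ≤ 2 * δ * ‖a‖ := by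
  classical
  let ρ : E →ₗ[ℝ] (S → ℝ) :=
    { toFun := fun a s => ((e₁ a : XS B) : Linf W) s
      map_add' := by
        intro x y
        funext s
        rw [map_add]
        rfl
      map_smul' := by
        intro c x
        funext s
        rw [map_smul]
        rfl }
  have hρ : ∀ a, ∀ s : S, ρ a s = ((e₁ a : XS B) : Linf W) s := fun _ _ => rfl
  have hρn : ∀ a, ‖e₁ a‖ ≤ ‖ρ a‖ := by
    intro a
    apply XS_norm_le B (norm_nonneg _)
    intro w
    have h3 : (((e₁ a : XS B) : Linf W) : W → ℝ) = ext B.T S ((e₁ a : XS B) : Linf W) :=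
      ext_unique B.T B.lt (fun _ _ => rfl) (hS a)
    rw [h3]
    apply abs_ext_le B.T B.lt B.sum_le _ _ (norm_nonneg _)
    intro γ hγ
    have h4 := norm_le_pi_norm (ρ a) ⟨γ, hγ⟩
    exact h4
  obtain ⟨t, ht1, ht2⟩ := exists_coeff ρ ((1 - δ) • g) zero_le_one (by
    intro a
    rw [LinearMap.smul_apply, smul_eq_mul, abs_mul, abs_of_nonneg (by linarith : 0 ≤ 1 - δ),
      one_mul]
    calc (1 - δ) * |g a| ≤ (1 - δ) * ‖a‖ := mul_le_mul_of_nonneg_left (hg a) (by linarith)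
      _ ≤ ‖e₁ a‖ := h2 a
      _ ≤ ‖ρ a‖ := hρn a)
  let η : ℝ := δ / (2 * (S.card + 1))
  have hη : 0 < η := by positivity
  choose q hq1 hq2 using fun s : S => exists_round (t s) hη
  let τ : W →₀ ℚ := Finsupp.indicator S (fun γ hγ => q ⟨γ, hγ⟩)
  have hτ : ∀ s : S, τ s = q s := by
    intro s
    simp only [τ]
    rw [Finsupp.indicator_of_mem s.2]
  have hτs : τ.support ⊆ S := Finsupp.support_indicator_subset _ _
  have hsum : ∀ y : W → ℝ, ∑ β ∈ τ.support, (τ β : ℝ) * y β = ∑ s : S, (q s : ℝ) * y s := by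
    intro y
    rw [Finset.sum_subset hτs (f := fun β => (τ β : ℝ) * y β)]
    · rw [← Finset.sum_coe_sort S (fun β => (τ β : ℝ) * y β)]
      apply Finset.sum_congr rfl
      intro s _
      rw [hτ]
    · intro β _ hβ
      rw [Finsupp.notMem_support_iff.1 hβ]
      simp
  refine ⟨τ, ?_, ?_⟩
  · have h3 : (∑ β ∈ τ.support, |τ β|) = ∑ s : S, |q s| := by
      rw [Finset.sum_subset hτs (f := fun β => |τ β|)]
      · rw [← Finset.sum_coe_sort S (fun β => |τ β|)]
        apply Finset.sum_congr rfl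
        intro s _
        rw [hτ]
      · intro β _ hβ
        rw [Finsupp.notMem_support_iff.1 hβ]
        simp
    rw [h3]
    have h4 : ((∑ s : S, |q s| : ℚ) : ℝ) ≤ 1 := by
      push_cast
      calc ∑ s : S, |(q s : ℝ)| ≤ ∑ s : S, |t s| := Finset.sum_le_sum (fun s _ => hq1 s)
        _ ≤ 1 := ht1
    exact_mod_cast h4
  · intro a
    rw [hsum]
    have h3 := ht2 a
    rw [LinearMap.smul_apply, smul_eq_mul] at h3
    have h4 : ∑ s : S, (q s : ℝ) * ((e₁ a : XS B) : Linf W) s - g a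
        = ∑ s : S, ((q s : ℝ) - t s) * ρ a s + ((1 - δ) * g a - g a) := by
      rw [h3]
      simp only [sub_mul, Finset.sum_sub_distrib, hρ]
      ring
    rw [h4]
    have h5 : |∑ s : S, ((q s : ℝ) - t s) * ρ a s| ≤ δ * ‖a‖ := by
      calc |∑ s : S, ((q s : ℝ) - t s) * ρ a s|
          ≤ ∑ s : S, |((q s : ℝ) - t s) * ρ a s| := Finset.abs_sum_le_sum_abs _ _
        _ ≤ ∑ s : S, η * (2 * ‖a‖) := by
            apply Finset.sum_le_sum
            intro s _
            rw [abs_mul]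
            apply mul_le_mul (hq2 s) _ (abs_nonneg _) hη.le
            calc |ρ a s| ≤ ‖e₁ a‖ := abs_le_XS_norm B (e₁ a) s
              _ ≤ (1 + δ) * ‖a‖ := h1 a
              _ ≤ 2 * ‖a‖ := mul_le_mul_of_nonneg_right (by linarith) (norm_nonneg _)
        _ = (S.card : ℝ) * (η * (2 * ‖a‖)) := by
            rw [Finset.sum_const, Finset.card_univ, Fintype.card_coe, nsmul_eq_mul]
        _ = δ * (S.card / (S.card + 1)) * ‖a‖ := by
            simp only [η]
            field_simp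
        _ ≤ δ * 1 * ‖a‖ := by
            apply mul_le_mul_of_nonneg_right _ (norm_nonneg _)
            apply mul_le_mul_of_nonneg_left _ hδ.le
            rw [div_le_one (by positivity)]
            linarith
        _ = δ * ‖a‖ := by ring
    have h6 : |(1 - δ) * g a - g a| ≤ δ * ‖a‖ := by
      have : (1 - δ) * g a - g a = - (δ * g a) := by ring
      rw [this, abs_neg, abs_mul, abs_of_pos hδ]
      exact mul_le_mul_of_nonneg_left (hg a) hδ.le
    calc |∑ s : S, ((q s : ℝ) - t s) * ρ a s + ((1 - δ) * g a - g a)|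
        ≤ |∑ s : S, ((q s : ℝ) - t s) * ρ a s| + |(1 - δ) * g a - g a| := abs_add_le _ _
      _ ≤ δ * ‖a‖ + δ * ‖a‖ := add_le_add h5 h6
      _ = 2 * δ * ‖a‖ := by ring

/-- The Gurarii property. -/
theorem gurarii_aux (hB : Rich B) {F : Type*} [NormedAddCommGroup F] [NormedSpace ℝ F]
    [FiniteDimensional ℝ F] (E : Submodule ℝ F) (e : E →ₗᵢ[ℝ] XS B) {ε : ℝ} (hε : 0 < ε)
    (hε1 : ε ≤ 1) :
    ∃ f : F →ₗ[ℝ] XS B, (∀ y : F, (1 + ε)⁻¹ * ‖y‖ ≤ ‖f y‖ ∧ ‖f y‖ ≤ (1 + ε) * ‖y‖) ∧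
      ∀ a : E, ‖f a - e a‖ ≤ ε * ‖a‖ := by
  classical
  let δ : ℝ := ε / 4
  have hδ : 0 < δ := by positivity
  have hδ1 : δ ≤ 1 / 4 := by
    simp only [δ]
    linarith
  have hδε : 3 * δ ≤ ε := by
    simp only [δ]
    linarith
  obtain ⟨e₁, S, he₁, hS⟩ := exists_perturb B e.toLinearMap hδ
  have he₁' : ∀ a, ‖e₁ a - e a‖ ≤ δ * ‖a‖ := he₁
  have h1 : ∀ a, ‖e₁ a‖ ≤ (1 + δ) * ‖a‖ := by
    intro a
    calc ‖e₁ a‖ = ‖(e₁ a - e a) + e a‖ := by rw [sub_add_cancel]
      _ ≤ ‖e₁ a - e a‖ + ‖e a‖ := norm_add_le _ _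
      _ ≤ δ * ‖a‖ + ‖a‖ := add_le_add (he₁' a) (e.norm_map a).le
      _ = (1 + δ) * ‖a‖ := by ring
  have h2 : ∀ a, (1 - δ) * ‖a‖ ≤ ‖e₁ a‖ := by
    intro a
    have h3 : ‖e a‖ ≤ ‖e₁ a‖ + ‖e₁ a - e a‖ := by
      calc ‖e a‖ = ‖e₁ a - (e₁ a - e a)‖ := by rw [sub_sub_cancel]
        _ ≤ ‖e₁ a‖ + ‖e₁ a - e a‖ := norm_sub_le _ _
    rw [e.norm_map] at h3
    linarith [he₁' a]
  -- norming functionals
  have hη : 0 < 1 - (1 + ε)⁻¹ := by
    rw [sub_pos]
    exact inv_lt_one_of_one_lt₀ (by linarith)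
  obtain ⟨t, g, hg1, hg2⟩ := exists_norming F hη
  -- extend the coordinates of `e₁`
  have hG : ∀ γ : W, ∃ G : F →L[ℝ] ℝ, ‖G‖ ≤ 1 + δ ∧
      ∀ a : E, G a = ((e₁ a : XS B) : Linf W) γ := by
    intro γ
    let φ : E →L[ℝ] ℝ := LinearMap.mkContinuous
      { toFun := fun a => ((e₁ a : XS B) : Linf W) γ
        map_add' := by
          intro x y
          rw [map_add]
          rfl
        map_smul' := by
          intro c x
          rw [map_smul]
          rfl } (1 + δ) (by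
          intro a
          exact (abs_le_XS_norm B (e₁ a) γ).trans (h1 a))
    obtain ⟨G, hG1, hG2⟩ := exists_extension_norm_eq E φ
    refine ⟨G, ?_, ?_⟩
    · rw [hG2]
      exact LinearMap.mkContinuous_norm_le _ (by linarith) _
    · intro a
      exact hG1 a
  choose G hG1 hG2 using hG
  -- the new functionals
  have hτ : ∀ x : F, ∃ τ : W →₀ ℚ, ∑ β ∈ τ.support, |τ β| ≤ 1 ∧
      ∀ a : E, |∑ β ∈ τ.support, (τ β : ℝ) * ((e₁ a : XS B) : Linf W) β - g x a|
        ≤ 2 * δ * ‖a‖ := by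
    intro x
    refine exists_tau B e₁ S hδ hδ1 h1 h2 hS ((g x).toLinearMap ∘ₗ E.subtype) ?_
    intro a
    calc |g x a| ≤ ‖g x‖ * ‖(a : F)‖ := (g x).le_opNorm _
      _ ≤ 1 * ‖(a : F)‖ := mul_le_mul_of_nonneg_right (hg1 x) (norm_nonneg _)
      _ = ‖a‖ := by rw [one_mul]; rfl
  choose τ hτ1 hτ2 using hτ
  have hW : Nonempty W := by
    obtain ⟨γ, -⟩ := hB 0 (by simp) ∅ Set.finite_empty
    exact ⟨γ⟩
  obtain ⟨γ, hγinj, hγ⟩ := exists_distinct (fun (x : F) (w : W) => ∀ β, B.T w β = (τ x β : ℝ))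
    (fun x C hC => hB (τ x) (hτ1 x) C hC) (S : Set W) S.finite_toSet hW t
  -- the family of functionals
  let Φ : W → (F →L[ℝ] ℝ) := fun w => if h : ∃ x ∈ t, γ x = w then g h.choose else
    if w ∈ S then G w else 0
  have hΦγ : ∀ x ∈ t, Φ (γ x) = g x := by
    intro x hx
    have h : ∃ x' ∈ t, γ x' = γ x := ⟨x, hx, rfl⟩
    simp only [Φ]
    rw [dif_pos h]
    rw [hγinj h.choose_spec.1 hx h.choose_spec.2]
  have hΦS : ∀ w ∈ S, Φ w = G w := by
    intro w hw
    have h : ¬ ∃ x ∈ t, γ x = w := by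
      rintro ⟨x, hx, hxw⟩
      apply (hγ x hx).1
      rw [hxw]
      exact hw
    simp only [Φ]
    rw [dif_neg h, if_pos hw]
  have hΦn : ∀ w, ‖Φ w‖ ≤ 1 + δ := by
    intro w
    simp only [Φ]
    split_ifs with h h'
    · exact (hg1 _).trans (by linarith)
    · exact hG1 w
    · rw [norm_zero]
      linarith
  let S' : Finset W := S ∪ t.image γ
  let f : F →ₗ[ℝ] XS B := fill B S' ∘ₗ LinearMap.pi (fun w => (Φ w).toLinearMap)
  have hf : ∀ y, (((f y : XS B) : Linf W) : W → ℝ) = ext B.T S' (fun w => Φ w y) := fun _ => rfl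
  refine ⟨f, ?_, ?_⟩
  · intro y
    constructor
    · by_cases hy : y = 0
      · rw [hy, norm_zero, mul_zero]
        exact norm_nonneg _
      · obtain ⟨x, hx, hxy⟩ := hg2 y hy
        rw [sub_sub_cancel] at hxy
        refine hxy.trans ?_
        have h3 : (((f y : XS B) : Linf W) : W → ℝ) (γ x) = g x y := by
          rw [hf, ext_of_mem B.T B.lt, hΦγ x hx]
          simp only [S', Finset.coe_union, Finset.coe_image]
          exact Or.inr ⟨x, hx, rfl⟩
        rw [← h3]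
        exact abs_le_XS_norm B (f y) (γ x)
    · apply XS_norm_le B (by positivity)
      intro w
      rw [hf]
      apply abs_ext_le B.T B.lt B.sum_le _ _ (by positivity)
      intro v _
      calc |Φ v y| ≤ ‖Φ v‖ * ‖y‖ := (Φ v).le_opNorm _
        _ ≤ (1 + ε) * ‖y‖ := mul_le_mul_of_nonneg_right ((hΦn v).trans (by linarith))
            (norm_nonneg _)
  · intro a
    have h3 : ‖f a - e₁ a‖ ≤ 2 * δ * ‖a‖ := by
      have h4 : (((e₁ a : XS B) : Linf W) : W → ℝ) = ext B.T S' ((e₁ a : XS B) : Linf W) := by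
        apply ext_unique B.T B.lt (fun _ _ => rfl)
        intro w hw
        apply hS a
        intro hwS
        apply hw
        simp only [S', Finset.coe_union]
        exact Or.inl hwS
      apply XS_norm_le B (by positivity)
      intro w
      have h5 : (((f a - e₁ a : XS B) : Linf W) : W → ℝ)
          = ext B.T S' (fun w => Φ w a - ((e₁ a : XS B) : Linf W) w) := by
        have h6 : (((f a - e₁ a : XS B) : Linf W) : W → ℝ)
          = ext B.T S' (fun w => Φ w a) + (-1 : ℝ) • ext B.T S' ((e₁ a : XS B) : Linf W) := by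
          rw [← h4]
          funext v
          rw [Pi.add_apply, Pi.smul_apply, smul_eq_mul, neg_one_mul, ← sub_eq_add_neg]
          rfl
        rw [h6, ← ext_smul B.T B.lt, ← ext_add B.T B.lt]
        congr 1
        funext v
        rw [Pi.add_apply, Pi.smul_apply, smul_eq_mul, neg_one_mul, ← sub_eq_add_neg]
      rw [h5]
      apply abs_ext_le B.T B.lt B.sum_le _ _ (by positivity)
      intro v hv
      simp only [S', Finset.coe_union, Finset.coe_image] at hv
      rcases hv with hv | ⟨x, hx, rfl⟩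
      · rw [hΦS v hv, hG2, sub_self, abs_zero]
        positivity
      · rw [hΦγ x hx]
        have h7 : ((e₁ a : XS B) : Linf W) (γ x)
            = ∑ β ∈ (τ x).support, (τ x β : ℝ) * ((e₁ a : XS B) : Linf W) β := by
          have h8 := hS a (γ x) (hγ x hx).1
          rw [dfct_apply, sub_eq_zero, sum_T_eq B (hγ x hx).2] at h8
          exact h8
        rw [h7, abs_sub_comm]
        exact hτ2 x a
    calc ‖f a - e a‖ = ‖(f a - e₁ a) + (e₁ a - e a)‖ := by rw [sub_add_sub_cancel]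
      _ ≤ ‖f a - e₁ a‖ + ‖e₁ a - e a‖ := norm_add_le _ _
      _ ≤ 2 * δ * ‖a‖ + δ * ‖a‖ := add_le_add h3 (he₁' a)
      _ = 3 * δ * ‖a‖ := by ring
      _ ≤ ε * ‖a‖ := mul_le_mul_of_nonneg_right hδε (norm_nonneg _)

end Pool.Agent.R268.Gur
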