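import Pool.Agent.R268.Gur.Ext

/-!
# The Banach space attached to a bookkeeping function
-/

open Set
open scoped ENNReal

namespace Pool.Agent.R268.Gur

/-- A bookkeeping function. -/
structure Book (W : Type) [LinearOrder W] where
  /-- the coefficients -/
  T : W → (W →₀ ℝ)
  lt : ∀ γ β, T γ β ≠ 0 → β < γ
  sum_le : ∀ γ, ∑ β ∈ (T γ).support, |T γ β| ≤ 1

/-- Bounded real functions on `W`. -/
abbrev Linf (W : Type) := lp (fun _ : W => ℝ) ∞

variable {W : Type} [LinearOrder W] [WellFoundedLT W] (B : Book W)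

omit [LinearOrder W] [WellFoundedLT W] in
theorem linf_mem {f : W → ℝ} {C : ℝ} (h : ∀ w, |f w| ≤ C) : Memℓp (E := fun _ : W => ℝ) f ∞ := by
  apply memℓp_infty
  refine ⟨C, ?_⟩
  rintro _ ⟨w, rfl⟩
  exact h w

omit [LinearOrder W] [WellFoundedLT W] in
theorem linf_norm_le {f : Linf W} {C : ℝ} (hC : 0 ≤ C) (h : ∀ w, |f w| ≤ C) : ‖f‖ ≤ C :=
  lp.norm_le_of_forall_le hC h

omit [LinearOrder W] [WellFoundedLT W] in
theorem abs_le_linf_norm (f : Linf W) (w : W) : |f w| ≤ ‖f‖ :=
  lp.norm_apply_le_norm ENNReal.top_ne_zero f w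

/-- Elements with finitely many defects. -/
noncomputable def V0 : Submodule ℝ (Linf W) where
  carrier := {y | {γ | dfct B.T y γ ≠ 0}.Finite}
  add_mem' := by
    intro x y hx hy
    refine (hx.union hy).subset ?_
    intro γ hγ
    by_contra hcon
    simp only [Set.mem_union, Set.mem_ofPred_eq, not_or, not_not] at hcon
    apply hγ
    rw [lp.coeFn_add, map_add, Pi.add_apply, hcon.1, hcon.2, add_zero]
  zero_mem' := by
    have : {γ | dfct B.T ((0 : Linf W) : W → ℝ) γ ≠ 0} = ∅ := by
      ext γ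
      simp only [Set.mem_ofPred_eq, Set.mem_empty_iff_false, iff_false, not_not]
      rw [lp.coeFn_zero, map_zero, Pi.zero_apply]
    change ({γ | dfct B.T ((0 : Linf W) : W → ℝ) γ ≠ 0}).Finite
    rw [this]
    exact Set.finite_empty
  smul_mem' := by
    intro c x hx
    refine hx.subset ?_
    intro γ hγ h0
    apply hγ
    rw [lp.coeFn_smul, map_smul, Pi.smul_apply, h0, smul_zero]

/-- The Banach space: the closure of the elements with finitely many defects. -/
noncomputable def XS : Submodule ℝ (Linf W) := (V0 B).topologicalClosure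

theorem mem_V0 {y : Linf W} : y ∈ V0 B ↔ {γ | dfct B.T y γ ≠ 0}.Finite := Iff.rfl

/-- `ext` as a contraction of the space of bounded functions. -/
noncomputable def extLp (L : Set W) : Linf W →L[ℝ] Linf W :=
  LinearMap.mkContinuous
    { toFun := fun y => ⟨ext B.T L y, linf_mem (C := ‖y‖) (fun w =>
        abs_ext_le B.T B.lt B.sum_le L y (norm_nonneg _) (fun γ _ => abs_le_linf_norm y γ) w)⟩
      map_add' := by
        intro x y
        apply Subtype.ext
        change ext B.T L _ = _
        rw [lp.coeFn_add, ext_add B.T B.lt]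
        rfl
      map_smul' := by
        intro c x
        apply Subtype.ext
        change ext B.T L _ = _
        rw [lp.coeFn_smul, ext_smul B.T B.lt]
        rfl } 1
    (by
      intro y
      rw [one_mul]
      apply linf_norm_le (norm_nonneg _)
      intro w
      exact abs_ext_le B.T B.lt B.sum_le L y (norm_nonneg _) (fun γ _ => abs_le_linf_norm y γ) w)

theorem coe_extLp (L : Set W) (y : Linf W) : ((extLp B L y : Linf W) : W → ℝ) = ext B.T L y :=
  rfl

theorem norm_extLp_le (L : Set W) (y : Linf W) : ‖extLp B L y‖ ≤ ‖y‖ := by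
  have := LinearMap.mkContinuous_norm_le (f := (extLp B L).toLinearMap) zero_le_one
    (by
      intro y
      rw [one_mul]
      apply linf_norm_le (norm_nonneg _)
      intro w
      exact abs_ext_le B.T B.lt B.sum_le L y (norm_nonneg _) (fun γ _ => abs_le_linf_norm y γ) w)
  apply linf_norm_le (norm_nonneg _)
  intro w
  exact abs_ext_le B.T B.lt B.sum_le L y (norm_nonneg _) (fun γ _ => abs_le_linf_norm y γ) w

theorem extLp_mem_V0 {L : Set W} (hL : IsLowerSet L) {y : Linf W} (hy : y ∈ V0 B) :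
    extLp B L y ∈ V0 B := by
  rw [mem_V0] at hy ⊢
  refine hy.subset ?_
  intro γ hγ
  rw [Set.mem_ofPred_eq, coe_extLp] at hγ
  by_cases h : γ ∈ L
  · rw [dfct_ext_lower B.T B.lt hL _ h] at hγ
    exact hγ
  · exact absurd (dfct_ext B.T B.lt _ h) hγ

theorem extLp_mem_XS {L : Set W} (hL : IsLowerSet L) {y : Linf W} (hy : y ∈ XS B) :
    extLp B L y ∈ XS B := by
  have h1 : Set.MapsTo (extLp B L) (V0 B : Set (Linf W)) (V0 B : Set (Linf W)) :=
    fun y hy => extLp_mem_V0 B hL hy
  exact h1.closure (extLp B L).continuous hy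

/-- The projection of the space attached to a lower set. -/
noncomputable def PL (L : Set W) (hL : IsLowerSet L) : XS B →L[ℝ] XS B :=
  (extLp B L).restrict (fun _ hy => extLp_mem_XS B hL hy)

theorem coe_PL (L : Set W) (hL : IsLowerSet L) (y : XS B) :
    ((PL B L hL y : XS B) : Linf W) = extLp B L y := rfl

theorem norm_PL_apply_le (L : Set W) (hL : IsLowerSet L) (y : XS B) : ‖PL B L hL y‖ ≤ ‖y‖ := by
  have := norm_extLp_le B L y
  exact this

theorem V0_le_XS : V0 B ≤ XS B := Submodule.le_topologicalClosure _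

/-- The basis vectors in `Linf`. -/
noncomputable def vecLp (α : W) : Linf W :=
  ⟨vec B.T α, linf_mem (C := 1) (abs_vec_le B.T B.lt B.sum_le α)⟩

theorem coe_vecLp (α : W) : ((vecLp B α : Linf W) : W → ℝ) = vec B.T α := rfl

theorem vecLp_mem_V0 (α : W) : vecLp B α ∈ V0 B := by
  rw [mem_V0]
  refine (Set.finite_singleton α).subset ?_
  intro γ hγ
  rw [Set.mem_ofPred_eq, coe_vecLp, dfct_vec B.T B.lt] at hγ
  by_contra hne
  exact hγ (Pi.single_eq_of_ne (by simpa using hne) _)

/-- The basis vectors in the space. -/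
noncomputable def vecX (α : W) : XS B := ⟨vecLp B α, V0_le_XS B (vecLp_mem_V0 B α)⟩

theorem coe_vecX (α : W) : ((vecX B α : XS B) : Linf W) = vecLp B α := rfl

theorem linf_eq_of_dfct {y z : Linf W} (h : dfct B.T y = dfct B.T z) : y = z :=
  Subtype.ext (dfct_injective B.T B.lt h)

theorem V0_eq_sum {y : Linf W} (hy : y ∈ V0 B) :
    y = ∑ γ ∈ Set.Finite.toFinset ((mem_V0 B).1 hy), dfct B.T y γ • vecLp B γ := by
  apply linf_eq_of_dfct B
  have h1 : ((∑ γ ∈ Set.Finite.toFinset ((mem_V0 B).1 hy), dfct B.T y γ • vecLp B γ : Linf W)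
      : W → ℝ) = ∑ γ ∈ Set.Finite.toFinset ((mem_V0 B).1 hy), dfct B.T y γ • vec B.T γ := by
    rw [lp.coeFn_sum]
    rfl
  rw [h1, map_sum]
  funext γ
  rw [Finset.sum_apply]
  by_cases h : dfct B.T y γ = 0
  · rw [h]
    symm
    apply Finset.sum_eq_zero
    intro β hβ
    rw [map_smul, dfct_vec B.T B.lt, Pi.smul_apply, Pi.single_eq_of_ne, smul_zero]
    rintro rfl
    simp only [Set.Finite.mem_toFinset, Set.mem_ofPred_eq] at hβ
    exact hβ h
  · rw [Finset.sum_eq_single γ]
    · rw [map_smul, dfct_vec B.T B.lt, Pi.smul_apply, Pi.single_eq_same, smul_eq_mul, mul_one]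
    · intro β _ hβ
      rw [map_smul, dfct_vec B.T B.lt, Pi.smul_apply, Pi.single_eq_of_ne hβ.symm, smul_zero]
    · intro hγ
      exfalso
      apply hγ
      simpa using h

theorem V0_le_span : V0 B ≤ Submodule.span ℝ (Set.range (vecLp B)) := by
  intro y hy
  rw [V0_eq_sum B hy]
  apply Submodule.sum_mem
  intro γ _
  exact Submodule.smul_mem _ _ (Submodule.subset_span ⟨γ, rfl⟩)

/-- The span of the basis vectors is dense in the space. -/
theorem dense_span_vecX :
    Dense ((Submodule.span ℝ (Set.range (vecX B)) : Submodule ℝ (XS B)) : Set (XS B)) := by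
  rintro ⟨x, hx⟩
  rw [closure_subtype]
  change x ∈ closure (V0 B : Set (Linf W)) at hx
  refine closure_mono ?_ hx
  intro y hy
  have hy' := V0_le_span B hy
  have h2 : Submodule.span ℝ (Set.range (vecLp B)) =
      (Submodule.span ℝ (Set.range (vecX B))).map (XS B).subtype := by
    rw [Submodule.map_span]
    congr 1
    rw [← Set.range_comp]
    rfl
  rw [h2] at hy'
  exact hy'

theorem PL_vecX_mem {L : Set W} (hL : IsLowerSet L) {α : W} (h : α ∈ L) :
    PL B L hL (vecX B α) = vecX B α := by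
  apply Subtype.ext
  rw [coe_PL, coe_vecX]
  apply linf_eq_of_dfct B
  rw [coe_extLp]
  funext γ
  by_cases hγ : γ ∈ L
  · rw [dfct_ext_lower B.T B.lt hL _ hγ]
  · rw [dfct_ext B.T B.lt _ hγ, coe_vecLp, dfct_vec B.T B.lt, Pi.single_eq_of_ne]
    rintro rfl
    exact hγ h

theorem PL_vecX_notMem {L : Set W} (hL : IsLowerSet L) {α : W} (h : α ∉ L) :
    PL B L hL (vecX B α) = 0 := by
  apply Subtype.ext
  rw [coe_PL, coe_vecX]
  apply linf_eq_of_dfct B
  rw [coe_extLp]
  have h0 : (((0 : XS B) : Linf W) : W → ℝ) = 0 := rfl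
  rw [h0, map_zero]
  funext γ
  by_cases hγ : γ ∈ L
  · rw [dfct_ext_lower B.T B.lt hL _ hγ, coe_vecLp, dfct_vec B.T B.lt, Pi.single_eq_of_ne]
    · rfl
    · rintro rfl
      exact h hγ
  · rw [dfct_ext B.T B.lt _ hγ]
    rfl

theorem vecX_ne_zero (α : W) : vecX B α ≠ 0 := by
  intro h
  have h1 : (((vecX B α : XS B) : Linf W) : W → ℝ) α = 0 := by
    rw [h]
    rfl
  rw [coe_vecX, coe_vecLp, vec_self B.T B.lt] at h1
  exact one_ne_zero h1

theorem one_le_norm_vecX_sub {α β : W} (h : α ≠ β) : 1 ≤ ‖vecX B α - vecX B β‖ := by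
  wlog hlt : α < β generalizing α β
  · rw [norm_sub_rev]
    exact this h.symm (lt_of_le_of_ne (not_lt.1 hlt) h.symm)
  have h1 := abs_le_linf_norm ((vecX B α - vecX B β : XS B) : Linf W) α
  have h2 : (((vecX B α - vecX B β : XS B) : Linf W) : W → ℝ) α = 1 := by
    have : (((vecX B α - vecX B β : XS B) : Linf W) : W → ℝ) α
        = vec B.T α α - vec B.T β α := rfl
    rw [this, vec_self B.T B.lt, vec_of_lt B.T B.lt hlt, sub_zero]
  rw [h2, abs_one] at h1
  exact h1

end Pool.Agent.R268.Gur
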